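import Mathlib

set_option autoImplicit false

/-!
# Squares of Lindelöf trees in the fine wedge topology

A tree `T` is Lindelöf in the fine wedge topology iff for every assignment `F` of finite sets to the
nodes the subtree `TF F` (at each node below `x` the immediate successor towards `x` is chosen from
the finite set) is countable.

* `square_of_martin`: under Martin's axiom for `ℵ₁` dense sets `T × T` is Lindelöf for every
  Lindelöf tree `T`. If not, one builds a continuous chain of countable closed sets `M δ`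
  (`δ < ω₁`) and nodes `x δ ∉ M δ` which are limits over all `M γ`, `γ ≤ δ`; the finite
  approximations to countably many finitely splitting subtrees covering `{x δ}` form a ccc poset by
  Baumgartner's ultrafilter argument.
* `counterexample`: if `𝔡 = ℵ₁` (for instance under CH) there is a Lindelöf tree of height `ω + 1`
  whose square is not Lindelöf: take increasing sequences `z^α` which escape every function, and the
  branches `x_α (z_i) = z_{i+1}` for even `i`, `y_α (z_i) = z_{i+1}` for odd `i` (and `0` elsewhere);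
  then `min (x_α m) (y_α k) ≤ max m k` for all `m, k`.
-/

namespace Pool.Agent.Results.MP_2757db_lc.FineWedgeSquares

open Set
open scoped Topology

universe u

/-- A set-theoretic tree: the strict predecessors of every node are well-ordered by `<`. -/
def IsTree (T : Type u) [PartialOrder T] : Prop :=
  ∀ x : T, IsWellOrder (Set.Iio x) (fun a b => (a : T) < (b : T))

/-- The fine wedge topology: the wedges `V_t = {s | t ≤ s}` and their complements form a
subbase. -/
@[reducible] def fineWedge (T : Type u) [PartialOrder T] : TopologicalSpace T :=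
  TopologicalSpace.generateFrom ({U | ∃ t : T, U = Set.Ici t} ∪ {U | ∃ t : T, U = (Set.Ici t)ᶜ})

/-- The tree is Lindelöf in its fine wedge topology. -/
def TreeLindelof (T : Type u) [PartialOrder T] : Prop := @LindelofSpace T (fineWedge T)

/-- The square of the tree (with the product of the fine wedge topologies) is Lindelöf. -/
def TreeSquareLindelof (T : Type u) [PartialOrder T] : Prop :=
  @LindelofSpace (T × T) (@instTopologicalSpaceProd T T (fineWedge T) (fineWedge T))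

section basic

variable {T : Type u} [PartialOrder T]

theorem comparable (hT : IsTree T) {a b x : T} (ha : a ≤ x) (hb : b ≤ x) : a ≤ b ∨ b ≤ a := by
  rcases ha.eq_or_lt with rfl | ha'
  · exact Or.inr hb
  rcases hb.eq_or_lt with rfl | hb'
  · exact Or.inl ha
  have := hT x
  rcases trichotomous_of (fun a b : Set.Iio x => (a : T) < (b : T)) ⟨a, ha'⟩ ⟨b, hb'⟩ with h | h | h
  · exact Or.inl h.le
  · exact Or.inl (le_of_eq (congrArg Subtype.val h))
  · exact Or.inr h.le

theorem exists_least (hT : IsTree T) {x : T} (P : T → Prop) (h : ∃ a, a ≤ x ∧ P a) :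
    ∃ a, a ≤ x ∧ P a ∧ ∀ b, b < a → ¬ P b := by
  by_cases h' : ∃ a, a < x ∧ P a
  · obtain ⟨a, ha, hPa⟩ := h'
    have := hT x
    have hwf : WellFounded (fun a b : Set.Iio x => (a : T) < (b : T)) := IsWellFounded.wf
    obtain ⟨⟨m, hm⟩, hmP, hmin⟩ := hwf.has_min {y : Set.Iio x | P y.1} ⟨⟨a, ha⟩, hPa⟩
    refine ⟨m, le_of_lt hm, hmP, fun b hb hPb => ?_⟩
    exact hmin ⟨b, hb.trans hm⟩ hPb hb
  · obtain ⟨a, ha, hPa⟩ := h
    rcases ha.eq_or_lt with rfl | ha'
    · exact ⟨a, le_rfl, hPa, fun b hb hPb => h' ⟨b, hb, hPb⟩⟩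
    · exact absurd ⟨a, ha', hPa⟩ h'

theorem exists_nx (hT : IsTree T) {s x : T} (h : s < x) :
    ∃ z, s < z ∧ z ≤ x ∧ ∀ w, s < w → w ≤ x → z ≤ w := by
  obtain ⟨a, hax, hsa, hmin⟩ := exists_least hT (x := x) (fun a => s < a) ⟨x, le_rfl, h⟩
  refine ⟨a, hsa, hax, fun w hw hwx => ?_⟩
  rcases comparable hT hax hwx with h1 | h1
  · exact h1
  · rcases h1.eq_or_lt with rfl | h2
    · exact le_rfl
    · exact absurd hw (hmin w h2)

open Classical in
/-- the immediate successor of `s` below `x` (for `s < x`) -/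
noncomputable def nx (hT : IsTree T) (s x : T) : T :=
  if h : s < x then Classical.choose (exists_nx hT h) else x

theorem nx_spec (hT : IsTree T) {s x : T} (h : s < x) :
    s < nx hT s x ∧ nx hT s x ≤ x ∧ ∀ w, s < w → w ≤ x → nx hT s x ≤ w := by
  unfold nx
  rw [dif_pos h]
  exact Classical.choose_spec (exists_nx hT h)

theorem lt_nx (hT : IsTree T) {s x : T} (h : s < x) : s < nx hT s x := (nx_spec hT h).1

theorem nx_le (hT : IsTree T) {s x : T} (h : s < x) : nx hT s x ≤ x := (nx_spec hT h).2.1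

theorem nx_least (hT : IsTree T) {s x w : T} (h1 : s < w) (h2 : w ≤ x) : nx hT s x ≤ w :=
  (nx_spec hT (h1.trans_le h2)).2.2 w h1 h2

theorem nx_eq (hT : IsTree T) {s w x : T} (h1 : s < w) (h2 : w ≤ x) : nx hT s w = nx hT s x := by
  have h3 : s < x := h1.trans_le h2
  apply le_antisymm
  · exact nx_least hT (lt_nx hT h3) (nx_least hT h1 h2)
  · exact nx_least hT (lt_nx hT h1) ((nx_le hT h1).trans h2)

/-- the finitely splitting subtree determined by a finite assignment -/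
def TF (hT : IsTree T) (F : T → Finset T) : Set T := {x | ∀ s, s < x → nx hT s x ∈ F s}

theorem isOpen_Ici' (t : T) : IsOpen[fineWedge T] (Set.Ici t) :=
  TopologicalSpace.isOpen_generateFrom_of_mem (Or.inl ⟨t, rfl⟩)

theorem isOpen_Ici_compl (t : T) : IsOpen[fineWedge T] (Set.Ici t)ᶜ :=
  TopologicalSpace.isOpen_generateFrom_of_mem (Or.inr ⟨t, rfl⟩)

/-- the basic neighbourhoods `V_t \ ⋃_{z ∈ F} V_z` -/
def nb (t : T) (F : Finset T) : Set T := {x | t ≤ x ∧ ∀ z ∈ F, ¬ z ≤ x}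

theorem isOpen_nb (t : T) (F : Finset T) : IsOpen[fineWedge T] (nb t F) := by
  letI := fineWedge T
  have : nb t F = Set.Ici t ∩ ⋂ z ∈ F, (Set.Ici z)ᶜ := by
    ext x
    simp [nb]
  rw [this]
  exact (isOpen_Ici' t).inter (isOpen_biInter_finset fun z _ => isOpen_Ici_compl z)

theorem exists_nb (hT : IsTree T) {U : Set T} (hU : IsOpen[fineWedge T] U) {t : T} (ht : t ∈ U) :
    ∃ F : Finset T, (∀ z ∈ F, t < z) ∧ nb t F ⊆ U := by
  classical
  induction hU with
  | basic s hs =>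
    rcases hs with ⟨r, rfl⟩ | ⟨r, rfl⟩
    · exact ⟨∅, by simp, fun x hx => le_trans ht hx.1⟩
    · by_cases hr : t < r
      · refine ⟨{r}, by simpa using hr, fun x hx => ?_⟩
        simpa using hx.2 r (by simp)
      · refine ⟨∅, by simp, fun x hx hrx => ?_⟩
        rcases comparable hT hx.1 hrx with h | h
        · rcases h.eq_or_lt with rfl | h
          · exact ht (le_refl t)
          · exact hr h
        · exact ht h
  | univ => exact ⟨∅, by simp, fun _ _ => trivial⟩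
  | inter s s' _ _ ih ih' =>
    obtain ⟨F, hF, hFs⟩ := ih ht.1
    obtain ⟨F', hF', hFs'⟩ := ih' ht.2
    refine ⟨F ∪ F', fun z hz => ?_, fun x hx => ⟨hFs ⟨hx.1, fun z hz => hx.2 z (by simp [hz])⟩,
      hFs' ⟨hx.1, fun z hz => hx.2 z (by simp [hz])⟩⟩⟩
    rcases Finset.mem_union.1 hz with h | h
    · exact hF z h
    · exact hF' z h
  | sUnion S _ ih =>
    obtain ⟨s, hs, hts⟩ := ht
    obtain ⟨F, hF, hFs⟩ := ih s hs hts
    exact ⟨F, hF, hFs.trans (Set.subset_sUnion_of_mem hs)⟩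

/-- if `nx s x` is not among the immediate successors given by `F`, then `x` lies in the basic
neighbourhood -/
theorem mem_nb_of_nx (hT : IsTree T) [DecidableEq T] {s x : T} {F : Finset T}
    (hF : ∀ z ∈ F, s < z) (hsx : s ≤ x)
    (h : s < x → nx hT s x ∉ F.image (nx hT s)) : x ∈ nb s F := by
  refine ⟨hsx, fun z hz hzx => ?_⟩
  have hsz := hF z hz
  apply h (hsz.trans_le hzx)
  rw [Finset.mem_image]
  exact ⟨z, hz, nx_eq hT hsz hzx⟩

theorem countable_TF (hT : IsTree T) (hL : TreeLindelof T) (F : T → Finset T) :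
    (TF hT F).Countable := by
  classical
  letI := fineWedge T
  haveI : LindelofSpace T := hL
  let U : T → Set T := fun s => nb s ((F s).filter (fun z => s < z))
  have hsU : ∀ s, s ∈ U s := by
    intro s
    refine ⟨le_rfl, fun z hz hzs => ?_⟩
    exact absurd hzs (not_le_of_gt (Finset.mem_filter.1 hz).2)
  obtain ⟨r, hr, hcov⟩ := (isLindelof_univ (X := T)).elim_countable_subcover U
    (fun s => isOpen_nb _ _) (fun s _ => Set.mem_iUnion.2 ⟨s, hsU s⟩)
  refine hr.mono fun x hx => ?_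
  obtain ⟨s, hs, hxs⟩ := Set.mem_iUnion₂.1 (hcov (Set.mem_univ x))
  rcases hxs.1.eq_or_lt with h | h
  · rwa [← h]
  · exfalso
    exact hxs.2 (nx hT s x) (Finset.mem_filter.2 ⟨hx s h, lt_nx hT h⟩) (nx_le hT h)

theorem exists_exit (hT : IsTree T) {F : T → Finset T} {x : T} (hx : x ∉ TF hT F) :
    ∃ s, s ∈ TF hT F ∧ s < x ∧ nx hT s x ∉ F s := by
  have : ∃ s, s < x ∧ nx hT s x ∉ F s := by
    by_contra hcon
    push Not at hcon
    exact hx hcon
  obtain ⟨s0, hs0, hs0'⟩ := this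
  obtain ⟨s, hsx, ⟨h1, h2⟩, hmin⟩ := exists_least hT (x := x)
    (fun s => s < x ∧ nx hT s x ∉ F s) ⟨s0, hs0.le, hs0, hs0'⟩
  refine ⟨s, fun s' hs' => ?_, h1, h2⟩
  by_contra hcon
  rw [nx_eq hT hs' hsx] at hcon
  exact hmin s' hs' ⟨hs'.trans h1, hcon⟩

theorem lindelof_of_TF (hT : IsTree T) (h : ∀ F : T → Finset T, (TF hT F).Countable) :
    TreeLindelof T := by
  classical
  letI := fineWedge T
  refine ⟨isLindelof_of_countable_subcover ?_⟩
  intro ι U hUo hcov
  have h1 : ∀ t : T, ∃ i, t ∈ U i := fun t => Set.mem_iUnion.1 (hcov (Set.mem_univ t))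
  choose i hi using h1
  have h2 : ∀ t : T, ∃ F : Finset T, (∀ z ∈ F, t < z) ∧ nb t F ⊆ U (i t) := fun t =>
    exists_nb hT (hUo (i t)) (hi t)
  choose F hF1 hF2 using h2
  refine ⟨i '' TF hT (fun s => (F s).image (nx hT s)), (h _).image i, fun x _ => ?_⟩
  by_cases hx : x ∈ TF hT (fun s => (F s).image (nx hT s))
  · exact Set.mem_iUnion₂.2 ⟨i x, ⟨x, hx, rfl⟩, hi x⟩
  · obtain ⟨s, hs, hsx, hn⟩ := exists_exit hT hx
    exact Set.mem_iUnion₂.2 ⟨i s, ⟨s, hs, rfl⟩, hF2 s (mem_nb_of_nx hT (hF1 s) hsx.le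
      (fun _ => hn))⟩

end basic


/-! ## The index set -/

/-- the well-ordered type of order type `ω₁` -/
abbrev I : Type := (Cardinal.aleph 1).ord.ToType

theorem mk_I : Cardinal.mk I = Cardinal.aleph 1 := by simp [I]

theorem countable_Iio_I (i : I) : (Set.Iio i).Countable := by
  rw [← Cardinal.le_aleph0_iff_set_countable, ← Cardinal.lt_aleph_one_iff]
  have := Cardinal.mk_Iio_lt i (by simp [I])
  rwa [mk_I] at this

theorem countable_Iic_I (i : I) : (Set.Iic i).Countable := by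
  rw [← Set.Iio_insert]
  exact (countable_Iio_I i).insert i

theorem uncountable_I : ¬ (Set.univ : Set I).Countable := by
  intro h
  rw [← Cardinal.le_aleph0_iff_set_countable, ← Cardinal.lt_aleph_one_iff, Cardinal.mk_univ,
    mk_I] at h
  exact lt_irrefl _ h

/-! ## The counterexample from `𝔡 = ℵ₁` -/

/-- Nodes: finite sequences of natural numbers and the infinite sequences in `X`. -/
structure Nd (X : Set (ℕ → ℕ)) : Type where
  len : ℕ∞
  fn : ℕ → ℕ
  zero : ∀ k : ℕ, len ≤ k → fn k = 0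
  top : len = ⊤ → fn ∈ X

namespace Nd

variable {X : Set (ℕ → ℕ)}

theorem ext' {a b : Nd X} (h1 : a.len = b.len) (h2 : ∀ k : ℕ, (k : ℕ∞) < a.len → a.fn k = b.fn k) :
    a = b := by
  have : a.fn = b.fn := by
    funext k
    by_cases hk : (k : ℕ∞) < a.len
    · exact h2 k hk
    · rw [a.zero k (not_lt.1 hk), b.zero k (h1 ▸ not_lt.1 hk)]
  cases a
  cases b
  simp only at h1 this
  subst h1
  subst this
  rfl

instance : PartialOrder (Nd X) where
  le a b := a.len ≤ b.len ∧ ∀ k : ℕ, (k : ℕ∞) < a.len → a.fn k = b.fn k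
  le_refl a := ⟨le_rfl, fun _ _ => rfl⟩
  le_trans a b c h1 h2 := ⟨h1.1.trans h2.1, fun k hk => (h1.2 k hk).trans
    (h2.2 k (hk.trans_le h1.1))⟩
  le_antisymm a b h1 h2 := ext' (le_antisymm h1.1 h2.1) h1.2

theorem le_def {a b : Nd X} : a ≤ b ↔ a.len ≤ b.len ∧ ∀ k : ℕ, (k : ℕ∞) < a.len → a.fn k = b.fn k :=
  Iff.rfl

theorem len_lt {a b : Nd X} (h : a < b) : a.len < b.len := by
  rcases (le_def.1 h.le).1.eq_or_lt with h1 | h1
  · exact absurd (ext' h1 (le_def.1 h.le).2) h.ne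
  · exact h1

theorem lt_of_len {a b x : Nd X} (ha : a ≤ x) (hb : b ≤ x) (h : a.len < b.len) : a < b := by
  refine lt_of_le_of_ne (le_def.2 ⟨h.le, fun k hk => ?_⟩) (fun hab => ?_)
  · rw [(le_def.1 ha).2 k hk, (le_def.1 hb).2 k (hk.trans h)]
  · rw [hab] at h
    exact lt_irrefl _ h

theorem isTree : IsTree (Nd X) := by
  intro x
  have f : (fun a b : Set.Iio x => (a : Nd X) < (b : Nd X)) ↪r
      ((· < ·) : ℕ∞ → ℕ∞ → Prop) :=
    { toFun := fun a => a.1.len
      inj' := by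
        intro a b hab
        apply Subtype.ext
        have ha : a.1 ≤ x := le_of_lt a.2
        have hb : b.1 ≤ x := le_of_lt b.2
        have hab' : a.1.len = b.1.len := hab
        exact ext' hab' (fun k hk => by
          rw [(le_def.1 ha).2 k hk, (le_def.1 hb).2 k (hab' ▸ hk)])
      map_rel_iff' := by
        intro a b
        exact ⟨fun h => lt_of_len (le_of_lt a.2) (le_of_lt b.2) h, fun h => len_lt h⟩ }
  exact f.isWellOrder

/-- the finite node `f|m` -/
def mk' (m : ℕ) (f : ℕ → ℕ) : Nd X where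
  len := m
  fn := fun k => if k < m then f k else 0
  zero := by
    intro k hk
    have : ¬ k < m := not_lt.2 (by exact_mod_cast hk)
    simp [this]
  top := by
    intro h
    exact absurd h (ENat.natCast_ne_top m)

/-- the top node of a sequence in `X` -/
def tp (f : ℕ → ℕ) (hf : f ∈ X) : Nd X where
  len := ⊤
  fn := f
  zero := by
    intro k hk
    exact absurd (top_le_iff.1 hk) (ENat.natCast_ne_top k)
  top := fun _ => hf

theorem mk'_lt_tp (m : ℕ) (f : ℕ → ℕ) (hf : f ∈ X) : (mk' m f : Nd X) < tp f hf := by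
  refine lt_of_le_of_ne (le_def.2 ⟨le_top, fun k hk => ?_⟩) (fun h => ?_)
  · have hk2 : (k : ℕ∞) < (m : ℕ∞) := hk
    have : k < m := by exact_mod_cast hk2
    simp [mk', tp, this]
  · have := congrArg Nd.len h
    exact ENat.natCast_ne_top m this

theorem countable_fin : {a : Nd X | a.len ≠ ⊤}.Countable := by
  have hm : Set.MapsTo (fun a : Nd X => (List.range a.len.toNat).map a.fn) {a : Nd X | a.len ≠ ⊤}
      (Set.univ : Set (List ℕ)) := fun _ _ => trivial
  refine hm.countable_of_injOn ?_ (Set.to_countable _)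
  intro a ha b hb hab
  simp only at hab
  have hl : a.len.toNat = b.len.toNat := by
    have := congrArg List.length hab
    simpa using this
  have hla : ((a.len.toNat : ℕ) : ℕ∞) = a.len := ENat.natCast_toNat ha
  have hlb : ((b.len.toNat : ℕ) : ℕ∞) = b.len := ENat.natCast_toNat hb
  refine ext' (by rw [← hla, ← hlb, hl]) (fun k hk => ?_)
  have hk' : k < a.len.toNat := by
    rw [← hla] at hk
    exact_mod_cast hk
  rw [hl, List.map_inj_left] at hab
  exact hab k (List.mem_range.2 (hl ▸ hk'))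

end Nd

/-- the increasing sequence growing faster than `f` -/
def zs (f : ℕ → ℕ) : ℕ → ℕ
  | 0 => 0
  | n + 1 => f (zs f n) + zs f n + 1

theorem zs_strictMono (f : ℕ → ℕ) : StrictMono (zs f) :=
  strictMono_nat_of_lt_succ fun n => by simp only [zs]; omega

open Classical in
/-- at the points `z i` with `i` of parity `b` the value is `z (i+1)`, elsewhere it is `0` -/
noncomputable def ww (z : ℕ → ℕ) (b m : ℕ) : ℕ :=
  if h : ∃ i, i % 2 = b ∧ z i = m then z (Classical.choose h + 1) else 0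

theorem ww_apply {z : ℕ → ℕ} (hz : StrictMono z) {b i : ℕ} (hi : i % 2 = b) :
    ww z b (z i) = z (i + 1) := by
  have h : ∃ j, j % 2 = b ∧ z j = z i := ⟨i, hi, rfl⟩
  unfold ww
  rw [dif_pos h]
  rw [hz.injective (Classical.choose_spec h).2]

theorem ww_cases {z : ℕ → ℕ} (hz : StrictMono z) {b m : ℕ} (h : ww z b m ≠ 0) :
    ∃ i, i % 2 = b ∧ z i = m ∧ ww z b m = z (i + 1) := by
  by_cases h' : ∃ i, i % 2 = b ∧ z i = m
  · obtain ⟨i, hi, rfl⟩ := h'
    exact ⟨i, hi, rfl, ww_apply hz hi⟩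
  · exact absurd (by unfold ww; rw [dif_neg h']) h

theorem ww_le {z : ℕ → ℕ} (hz : StrictMono z) {b k i : ℕ} (hk : k < z i) : ww z b k ≤ z i := by
  by_cases h : ww z b k = 0
  · rw [h]
    exact Nat.zero_le _
  · obtain ⟨j, -, hj, hj'⟩ := ww_cases hz h
    rw [hj']
    apply hz.monotone
    rw [← hj] at hk
    exact hz.lt_iff_lt.1 hk

theorem ww_cross {z : ℕ → ℕ} (hz : StrictMono z) (m k : ℕ) :
    ww z 0 m ≤ max m k ∨ ww z 1 k ≤ max m k := by
  by_contra hcon
  push Not at hcon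
  obtain ⟨h1, h2⟩ := hcon
  obtain ⟨i, hi, rfl, hi'⟩ := ww_cases hz (b := 0) (m := m) (by omega)
  obtain ⟨j, hj, rfl, hj'⟩ := ww_cases hz (b := 1) (m := k) (by omega)
  rcases lt_trichotomy i j with h | h | h
  · have := hz.monotone (show i + 1 ≤ j from h)
    rw [hi'] at h1
    have := le_max_right (z i) (z j)
    omega
  · omega
  · have := hz.monotone (show j + 1 ≤ i from h)
    rw [hj'] at h2
    have := le_max_left (z i) (z j)
    omega

/-- `𝔡 ≤ ℵ₁`: some family of at most `ℵ₁` functions dominates every function `ℕ → ℕ`. -/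
def DominatingLeAlephOne : Prop :=
  ∃ D : Set (ℕ → ℕ), Cardinal.mk D ≤ Cardinal.aleph 1 ∧
    ∀ h : ℕ → ℕ, ∃ g ∈ D, ∀ᶠ n in Filter.atTop, h n ≤ g n

section counter

variable (ff : I → ℕ → ℕ)

/-- the set of infinite branches of the example -/
def XX : Set (ℕ → ℕ) := {f | ∃ α : I, ∃ b : ℕ, b < 2 ∧ f = ww (zs (ff α)) b}

theorem memXX (α : I) {b : ℕ} (hb : b < 2) : ww (zs (ff α)) b ∈ XX ff := ⟨α, b, hb, rfl⟩

/-- extension of a finite function by zero -/
def ex {m : ℕ} (v : Fin m → Fin (m + 1)) (k : ℕ) : ℕ := if h : k < m then (v ⟨k, h⟩ : ℕ) else 0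

theorem key (hff : ∀ h : ℕ → ℕ, ∃ β : I, ∀ α, β ≤ α → ∀ᶠ n in Filter.atTop, h n ≤ ff α n)
    (F : Nd (XX ff) → Finset (Nd (XX ff))) {b : ℕ} (hb : b < 2) :
    {α | Nd.tp _ (memXX ff α hb) ∈ TF Nd.isTree F}.Countable := by
  classical
  let G : ℕ → ℕ := fun m => Finset.univ.sup (fun v : Fin m → Fin (m + 1) =>
    (F (Nd.mk' m (ex v))).sup (fun z => z.fn m))
  obtain ⟨β, hβ⟩ := hff G
  refine (countable_Iio_I β).mono fun α hα => ?_
  rw [Set.mem_Iio]
  by_contra hcon
  rw [not_lt] at hcon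
  obtain ⟨N, hN⟩ := Filter.eventually_atTop.1 (hβ α hcon)
  set z := zs (ff α) with hzdef
  have hz : StrictMono z := zs_strictMono _
  set i := 2 * N + b with hi
  have hib : i % 2 = b := by omega
  have hzi : N ≤ z i := le_trans (by omega) (hz.le_apply (x := i))
  have h1 : G (z i) ≤ ff α (z i) := hN _ hzi
  set w := ww z b with hw
  have h2 := hα (Nd.mk' (z i) w) (Nd.mk'_lt_tp _ _ _)
  -- the node is one of those used in `G`
  have h3 : ∀ k, k < z i → w k < z i + 1 := fun k hk => Nat.lt_succ_of_le (ww_le hz hk)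
  let v : Fin (z i) → Fin (z i + 1) := fun k => ⟨w k, h3 k k.2⟩
  have h4 : (Nd.mk' (z i) w : Nd (XX ff)) = Nd.mk' (z i) (ex v) := by
    refine Nd.ext' rfl (fun k hk => ?_)
    have hk' : k < z i := by
      have : ((Nd.mk' (z i) w : Nd (XX ff)).len) = ((z i : ℕ) : ℕ∞) := rfl
      rw [this] at hk
      exact_mod_cast hk
    simp [Nd.mk', ex, v, hk']
  set s : Nd (XX ff) := Nd.mk' (z i) w with hs
  have h5 : (nx Nd.isTree s (Nd.tp w (memXX ff α hb))).fn (z i) = z (i + 1) := by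
    have hlt := Nd.mk'_lt_tp (X := XX ff) (z i) w (memXX ff α hb)
    have ha := lt_nx Nd.isTree hlt
    have hb' := nx_le Nd.isTree hlt
    have hc : ((z i : ℕ) : ℕ∞) < (nx Nd.isTree s (Nd.tp w (memXX ff α hb))).len := Nd.len_lt ha
    rw [(Nd.le_def.1 hb').2 (z i) hc]
    exact ww_apply hz hib
  have h6 : z (i + 1) ≤ G (z i) := by
    have h7 : (nx Nd.isTree s (Nd.tp w (memXX ff α hb))).fn (z i) ≤
        (F s).sup (fun y => y.fn (z i)) :=
      Finset.le_sup (f := fun y : Nd (XX ff) => y.fn (z i)) h2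
    have h8 : (F s).sup (fun y => y.fn (z i)) ≤ G (z i) := by
      rw [h4]
      exact Finset.le_sup (f := fun v : Fin (z i) → Fin (z i + 1) =>
        (F (Nd.mk' (z i) (ex v))).sup (fun y => y.fn (z i))) (Finset.mem_univ v)
    rw [h5] at h7
    exact h7.trans h8
  have h8 : z (i + 1) = ff α (z i) + z i + 1 := rfl
  omega

theorem tf_countable
    (hff : ∀ h : ℕ → ℕ, ∃ β : I, ∀ α, β ≤ α → ∀ᶠ n in Filter.atTop, h n ≤ ff α n)
    (F : Nd (XX ff) → Finset (Nd (XX ff))) : (TF Nd.isTree F).Countable := by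
  have h0 := key ff hff F (b := 0) (by norm_num)
  have h1 := key ff hff F (b := 1) (by norm_num)
  refine ((Nd.countable_fin (X := XX ff)).union
    ((h0.image (fun α => Nd.tp _ (memXX ff α (b := 0) (by norm_num)))).union
      (h1.image (fun α => Nd.tp _ (memXX ff α (b := 1) (by norm_num)))))).mono fun a ha => ?_
  by_cases hl : a.len = ⊤
  · right
    obtain ⟨α, b, hb, hf⟩ := a.top hl
    have hab : a = Nd.tp _ (memXX ff α hb) :=
      Nd.ext' hl (fun k _ => by rw [hf]; rfl)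
    have hb2 : b = 0 ∨ b = 1 := by omega
    rcases hb2 with rfl | rfl
    · left
      exact ⟨α, by rw [Set.mem_ofPred_eq, ← hab]; exact ha, hab.symm⟩
    · right
      exact ⟨α, by rw [Set.mem_ofPred_eq, ← hab]; exact ha, hab.symm⟩
  · left
    exact hl

theorem fiber_countable
    (hff : ∀ h : ℕ → ℕ, ∃ β : I, ∀ α, β ≤ α → ∀ᶠ n in Filter.atTop, h n ≤ ff α n)
    {b : ℕ} (hb : b < 2) (u : Nd (XX ff)) :
    {α | Nd.tp _ (memXX ff α hb) = u}.Countable := by
  classical
  refine (key ff hff (fun s => {nx Nd.isTree s u}) hb).mono fun α hα => ?_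
  intro s _
  rw [Set.mem_ofPred_eq] at hα
  rw [hα]
  exact Finset.mem_singleton_self _

/-- the node `s` (of length `m`) extended by the value `i` -/
def Nd.extd {X : Set (ℕ → ℕ)} (s : Nd X) (m i : ℕ) : Nd X := Nd.mk' (m + 1) (Function.update s.fn m i)

theorem Nd.extd_le {X : Set (ℕ → ℕ)} {s x : Nd X} {m : ℕ} (hm : s.len = m) (hx : x.len = ⊤)
    (hsx : s ≤ x) : s.extd m (x.fn m) ≤ x := by
  refine Nd.le_def.2 ⟨hx ▸ le_top, fun k hk => ?_⟩
  have hk2 : (k : ℕ∞) < ((m + 1 : ℕ) : ℕ∞) := hk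
  have hk3 : k < m + 1 := by exact_mod_cast hk2
  simp only [Nd.extd, Nd.mk', hk3, if_true]
  by_cases h : k = m
  · subst h
    simp
  · rw [Function.update_of_ne h]
    apply (Nd.le_def.1 hsx).2 k
    rw [hm]
    exact_mod_cast (by omega : k < m)

theorem not_square
    (hff : ∀ h : ℕ → ℕ, ∃ β : I, ∀ α, β ≤ α → ∀ᶠ n in Filter.atTop, h n ≤ ff α n) :
    ¬ TreeSquareLindelof (Nd (XX ff)) := by
  classical
  intro hL
  let X0 : I → Nd (XX ff) := fun α => Nd.tp _ (memXX ff α (b := 0) (by norm_num))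
  let X1 : I → Nd (XX ff) := fun α => Nd.tp _ (memXX ff α (b := 1) (by norm_num))
  have h1 : ∀ p : Nd (XX ff) × Nd (XX ff), ∃ F G : Finset (Nd (XX ff)),
      p.1 ∈ nb p.1 F ∧ p.2 ∈ nb p.2 G ∧ {α | X0 α ∈ nb p.1 F ∧ X1 α ∈ nb p.2 G}.Countable := by
    rintro ⟨s, t⟩
    by_cases hs : s.len = ⊤
    · refine ⟨∅, ∅, ⟨le_rfl, by simp⟩, ⟨le_rfl, by simp⟩, ?_⟩
      refine (fiber_countable ff hff (b := 0) (by norm_num) s).mono fun α hα => ?_
      refine (Nd.ext' ?_ (fun k hk => ?_)).symm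
      · rw [hs]
        rfl
      · exact (Nd.le_def.1 hα.1.1).2 k hk
    by_cases ht : t.len = ⊤
    · refine ⟨∅, ∅, ⟨le_rfl, by simp⟩, ⟨le_rfl, by simp⟩, ?_⟩
      refine (fiber_countable ff hff (b := 1) (by norm_num) t).mono fun α hα => ?_
      refine (Nd.ext' ?_ (fun k hk => ?_)).symm
      · rw [ht]
        rfl
      · exact (Nd.le_def.1 hα.2.1).2 k hk
    obtain ⟨m, hm⟩ := ENat.ne_top_iff_exists.1 hs
    obtain ⟨k, hk⟩ := ENat.ne_top_iff_exists.1 ht
    refine ⟨(Finset.range (max m k + 1)).image (fun i => s.extd m i),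
      (Finset.range (max m k + 1)).image (fun i => t.extd k i), ⟨le_rfl, ?_⟩, ⟨le_rfl, ?_⟩, ?_⟩
    · intro z hz hzs
      obtain ⟨i, -, rfl⟩ := Finset.mem_image.1 hz
      have := (Nd.le_def.1 hzs).1
      have h2 : ((m + 1 : ℕ) : ℕ∞) ≤ (m : ℕ∞) := by
        rw [hm]
        exact this
      have h3 : m + 1 ≤ m := by exact_mod_cast h2
      omega
    · intro z hz hzs
      obtain ⟨i, -, rfl⟩ := Finset.mem_image.1 hz
      have := (Nd.le_def.1 hzs).1
      have h2 : ((k + 1 : ℕ) : ℕ∞) ≤ (k : ℕ∞) := by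
        rw [hk]
        exact this
      have h3 : k + 1 ≤ k := by exact_mod_cast h2
      omega
    · convert Set.countable_empty (α := I)
      rw [Set.eq_empty_iff_forall_notMem]
      rintro α ⟨h3, h4⟩
      rcases ww_cross (zs_strictMono (ff α)) m k with h | h
      · refine h3.2 (s.extd m (ww (zs (ff α)) 0 m)) (Finset.mem_image.2 ⟨_, Finset.mem_range.2
          (by omega), rfl⟩) ?_
        exact Nd.extd_le (x := X0 α) hm.symm rfl h3.1
      · refine h4.2 (t.extd k (ww (zs (ff α)) 1 k)) (Finset.mem_image.2 ⟨_, Finset.mem_range.2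
          (by omega), rfl⟩) ?_
        exact Nd.extd_le (x := X1 α) hk.symm rfl h4.1
  choose F G hF hG hc using h1
  letI := fineWedge (Nd (XX ff))
  haveI : LindelofSpace (Nd (XX ff) × Nd (XX ff)) := hL
  obtain ⟨r, hr, hcov⟩ := (isLindelof_univ (X := Nd (XX ff) × Nd (XX ff))).elim_countable_subcover
    (fun p => nb p.1 (F p) ×ˢ nb p.2 (G p))
    (fun p => (isOpen_nb _ _).prod (isOpen_nb _ _))
    (fun p _ => Set.mem_iUnion.2 ⟨p, hF p, hG p⟩)
  apply uncountable_I
  refine (hr.biUnion (fun p _ => hc p)).mono fun α _ => ?_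
  obtain ⟨p, hp, h⟩ := Set.mem_iUnion₂.1 (hcov (Set.mem_univ (X0 α, X1 α)))
  exact Set.mem_iUnion₂.2 ⟨p, hp, h.1, h.2⟩

end counter

/-- from a dominating family of size `ℵ₁` one obtains functions `ff α` (`α < ω₁`) such that every
function is dominated by all but countably many of them -/
theorem exists_ff (hd : DominatingLeAlephOne) : ∃ ff : I → ℕ → ℕ,
    ∀ h : ℕ → ℕ, ∃ β : I, ∀ α, β ≤ α → ∀ᶠ n in Filter.atTop, h n ≤ ff α n := by
  obtain ⟨D, hD, hdom⟩ := hd
  obtain ⟨g0, hg0, -⟩ := hdom 0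
  have h1 : ∃ e : D → I, Function.Injective e := by
    rw [← mk_I] at hD
    exact hD.elim fun e => ⟨e, e.injective⟩
  obtain ⟨e, he⟩ := h1
  haveI : Nonempty D := ⟨⟨g0, hg0⟩⟩
  let g : I → ℕ → ℕ := fun β => (Function.invFun e β).1
  have h2 : ∀ h : ℕ → ℕ, ∃ β, ∀ᶠ n in Filter.atTop, h n ≤ g β n := by
    intro h
    obtain ⟨g', hg', hh⟩ := hdom h
    refine ⟨e ⟨g', hg'⟩, ?_⟩
    simpa only [g, Function.leftInverse_invFun he ⟨g', hg'⟩] using hh
  have h3 : ∀ α : I, ∃ s : ℕ → I, Set.Iic α = Set.range s := fun α =>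
    (countable_Iic_I α).exists_eq_range ⟨α, le_refl α⟩
  choose s hs using h3
  refine ⟨fun α n => (Finset.range (n + 1)).sup (fun j => g (s α j) n), fun h => ?_⟩
  obtain ⟨β, hβ⟩ := h2 h
  refine ⟨β, fun α hα => ?_⟩
  have h4 : β ∈ Set.range (s α) := by
    rw [← hs α]
    exact hα
  obtain ⟨j, hj⟩ := h4
  filter_upwards [hβ, Filter.eventually_ge_atTop j] with n hn hjn
  refine hn.trans ?_
  rw [← hj]
  exact Finset.le_sup (f := fun j => g (s α j) n) (Finset.mem_range.2 (by omega))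

theorem counterexample (hd : DominatingLeAlephOne) :
    ∃ (T : Type) (_ : PartialOrder T), IsTree T ∧ TreeLindelof T ∧ ¬ TreeSquareLindelof T := by
  obtain ⟨ff, hff⟩ := exists_ff hd
  exact ⟨Nd (XX ff), inferInstance, Nd.isTree, lindelof_of_TF Nd.isTree (tf_countable ff hff),
    not_square ff hff⟩

/-- the continuum hypothesis gives a dominating family of size `ℵ₁` -/
theorem dominating_of_CH (h : Cardinal.continuum.{0} = Cardinal.aleph 1) :
    DominatingLeAlephOne := by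
  refine ⟨Set.univ, ?_, fun h => ⟨h, trivial, Filter.Eventually.of_forall fun _ => le_rfl⟩⟩
  rw [Cardinal.mk_univ, ← h]
  simp

/-! ## A criterion for the countable chain condition -/

section ccc

variable {α β : Type u}

theorem root_lemma {P γ : Type*} (n : ℕ) : ∀ (A : Set P) (g : P → Finset γ), ¬ A.Countable →
    (∀ p ∈ A, (g p).card = n) → ∃ B ⊆ A, ¬ B.Countable ∧ ∃ R : Finset γ, (∀ p ∈ B, R ⊆ g p) ∧
      ∀ p ∈ B, ∀ q ∈ B, p ≠ q → ∀ c, c ∈ g p → c ∈ g q → c ∈ R := by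
  classical
  induction n with
  | zero =>
    intro A g hA hg
    refine ⟨A, le_rfl, hA, ∅, fun _ _ => Finset.empty_subset _, fun p hp q _ _ c hc _ => ?_⟩
    rw [Finset.card_eq_zero.1 (hg p hp)] at hc
    exact hc
  | succ n ih =>
    intro A g hA hg
    by_cases h : ∃ c, ¬ {p | p ∈ A ∧ c ∈ g p}.Countable
    · obtain ⟨c, hc⟩ := h
      obtain ⟨B, hBA, hB, R, hR0, hR⟩ := ih {p | p ∈ A ∧ c ∈ g p} (fun p => (g p).erase c) hc (by
        rintro p ⟨hp1, hp2⟩
        rw [Finset.card_erase_of_mem hp2, hg p hp1]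
        rfl)
      refine ⟨B, fun p hp => (hBA hp).1, hB, insert c R, fun p hp =>
        Finset.insert_subset (hBA hp).2 ((hR0 p hp).trans (Finset.erase_subset _ _)),
        fun p hp q hq hpq d hd hd' => ?_⟩
      by_cases hdc : d = c
      · exact Finset.mem_insert.2 (Or.inl hdc)
      · exact Finset.mem_insert.2 (Or.inr (hR p hp q hq hpq d (Finset.mem_erase.2 ⟨hdc, hd⟩)
          (Finset.mem_erase.2 ⟨hdc, hd'⟩)))
    · push Not at h
      obtain ⟨B, hB⟩ := zorn_subset {B : Set P | B ⊆ A ∧ ∀ p ∈ B, ∀ q ∈ B, p ≠ q →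
          Disjoint (g p) (g q)} (by
        intro c hc hchain
        refine ⟨⋃₀ c, ⟨Set.sUnion_subset fun s hs => (hc hs).1, ?_⟩,
          fun s hs => Set.subset_sUnion_of_mem hs⟩
        rintro p ⟨s, hs, hps⟩ q ⟨t, ht, hqt⟩ hpq
        rcases hchain.total hs ht with hst | hst
        · exact (hc ht).2 p (hst hps) q hqt hpq
        · exact (hc hs).2 p hps q (hst hqt) hpq)
      refine ⟨B, hB.prop.1, fun hBc => hA ?_, ∅, fun _ _ => Finset.empty_subset _,
        fun p hp q hq hpq c hc hc' => ?_⟩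
      · have h1 : A ⊆ B ∪ ⋃ q ∈ B, ⋃ c ∈ g q, {p | p ∈ A ∧ c ∈ g p} := by
          intro p hp
          by_contra hcon
          rw [Set.mem_union, not_or] at hcon
          obtain ⟨h2, h3⟩ := hcon
          apply h2
          apply hB.le_of_ge (y := insert p B) _ (Set.subset_insert p B) (Set.mem_insert p B)
          refine ⟨Set.insert_subset hp hB.prop.1, ?_⟩
          have h4 : ∀ q ∈ B, Disjoint (g p) (g q) := by
            intro q hq
            rw [Finset.disjoint_left]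
            intro c hc hc'
            exact h3 (Set.mem_iUnion₂.2 ⟨q, hq, Set.mem_iUnion₂.2 ⟨c, hc', hp, hc⟩⟩)
          intro a ha b hb hab
          rcases Set.mem_insert_iff.1 ha with ha1 | ha1 <;>
            rcases Set.mem_insert_iff.1 hb with hb1 | hb1
          · exact absurd (ha1.trans hb1.symm) hab
          · rw [ha1]
            exact h4 b hb1
          · rw [hb1]
            exact (h4 a ha1).symm
          · exact hB.prop.2 a ha1 b hb1 hab
        refine Set.Countable.mono h1 (hBc.union (hBc.biUnion fun q _ =>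
          (g q).countable_toSet.biUnion fun c _ => h c))
      · exact absurd hc' (Finset.disjoint_left.1 (hB.prop.2 p hp q hq hpq) hc)

/-- the poset of finite approximations: pairs `(H, D)` of finite sets without bad pairs -/
def Pos (bad : α → β → Prop) : Type u :=
  {p : Finset α × Finset β // ∀ a ∈ p.1, ∀ d ∈ p.2, ¬ bad a d}

instance (bad : α → β → Prop) : Preorder (Pos bad) where
  le q p := p.1.1 ⊆ q.1.1 ∧ p.1.2 ⊆ q.1.2
  le_refl p := ⟨le_rfl, le_rfl⟩
  le_trans a b c h1 h2 := ⟨h2.1.trans h1.1, h2.2.trans h1.2⟩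

theorem pos_le {bad : α → β → Prop} {q p : Pos bad} :
    q ≤ p ↔ p.1.1 ⊆ q.1.1 ∧ p.1.2 ⊆ q.1.2 := Iff.rfl

theorem ccc (bad : α → β → Prop) (h1 : ∀ d, {a | bad a d}.Countable)
    (h2 : ∀ S : Set α, (∀ a ∈ S, ∀ a' ∈ S, ∃ d, bad a d ∧ bad a' d) → S.Countable)
    (A : Set (Pos bad)) (hA : ∀ a ∈ A, ∀ b ∈ A, a ≠ b → ¬ ∃ c, c ≤ a ∧ c ≤ b) :
    A.Countable := by
  classical
  by_contra hAc
  let g : Pos bad → Finset (α ⊕ β) := fun p => p.1.1.disjSum p.1.2
  have h3 : ∃ n, ¬ {p | p ∈ A ∧ (g p).card = n}.Countable := by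
    by_contra hcon
    push Not at hcon
    apply hAc
    refine (Set.countable_iUnion hcon).mono fun p hp => ?_
    exact Set.mem_iUnion.2 ⟨(g p).card, hp, rfl⟩
  obtain ⟨n, hn⟩ := h3
  obtain ⟨B, hBA, hB, R, hR0, hR⟩ := root_lemma n {p | p ∈ A ∧ (g p).card = n} g hn
    (fun p hp => hp.2)
  have hBA' : B ⊆ A := fun p hp => (hBA hp).1
  -- incompatibility gives a bad pair
  have h4 : ∀ p ∈ B, ∀ q ∈ B, p ≠ q → (∃ a ∈ p.1.1, ∃ d ∈ q.1.2, bad a d) ∨
      (∃ a ∈ q.1.1, ∃ d ∈ p.1.2, bad a d) := by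
    intro p hp q hq hpq
    by_contra hcon
    push Not at hcon
    obtain ⟨c1, c2⟩ := hcon
    apply hA p (hBA' hp) q (hBA' hq) hpq
    refine ⟨⟨(p.1.1 ∪ q.1.1, p.1.2 ∪ q.1.2), ?_⟩, ⟨Finset.subset_union_left,
      Finset.subset_union_left⟩, ⟨Finset.subset_union_right, Finset.subset_union_right⟩⟩
    intro a ha d hd
    rcases Finset.mem_union.1 ha with ha | ha <;> rcases Finset.mem_union.1 hd with hd | hd
    · exact p.2 a ha d hd
    · exact c1 a ha d hd
    · exact c2 a ha d hd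
    · exact q.2 a ha d hd
  have hmem1 : ∀ (p : Pos bad) (a : α), a ∈ p.1.1 ↔ Sum.inl a ∈ g p := by
    intro p a
    simp [g]
  -- the first alternative holds for all but countably many `q`
  have h5 : ∀ p ∈ B, {q | q ∈ B ∧ ¬ ∃ a ∈ p.1.1, Sum.inl a ∉ R ∧ ∃ d ∈ q.1.2, bad a d}.Countable := by
    intro p hp
    have h6 : {q | q ∈ B ∧ ¬ ∃ a ∈ p.1.1, Sum.inl a ∉ R ∧ ∃ d ∈ q.1.2, bad a d} ⊆
        {p} ∪ ⋃ d ∈ p.1.2, ⋃ a ∈ {a | bad a d}, {q | q ∈ B ∧ a ∈ q.1.1 ∧ Sum.inl a ∉ R} := by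
      rintro q ⟨hq, hq'⟩
      by_cases hpq : q = p
      · exact Or.inl hpq
      right
      rcases h4 p hp q hq (Ne.symm hpq) with ⟨a, ha, d, hd, hb⟩ | ⟨a, ha, d, hd, hb⟩
      · exfalso
        apply hq'
        refine ⟨a, ha, fun haR => ?_, d, hd, hb⟩
        exact q.2 a ((hmem1 q a).2 (hR0 q hq haR)) d hd hb
      · refine Set.mem_iUnion₂.2 ⟨d, hd, Set.mem_iUnion₂.2 ⟨a, hb, hq, ha, fun haR => ?_⟩⟩
        exact p.2 a ((hmem1 p a).2 (hR0 p hp haR)) d hd hb
    refine Set.Countable.mono h6 ((Set.countable_singleton p).union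
      (p.1.2.countable_toSet.biUnion fun d _ => (h1 d).biUnion fun a _ => ?_))
    apply Set.Subsingleton.countable
    rintro q ⟨hq, haq, haR⟩ q' ⟨hq', haq', -⟩
    by_contra hne
    exact haR (hR q hq q' hq' hne _ ((hmem1 q a).1 haq) ((hmem1 q' a).1 haq'))
  -- a uniform ultrafilter on `B`
  let 𝓕 : Filter (Pos bad) := 
    { sets := {S | (B \ S).Countable}
      univ_sets := by simp
      sets_of_superset := fun {S S'} hS hSS' => hS.mono (sdiff_subset_sdiff_right hSS')
      inter_sets := fun {S S'} hS hS' => by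
        rw [Set.mem_ofPred_eq, Set.sdiff_inter]
        exact hS.union hS' }
  have h𝓕 : ∀ S, S ∈ 𝓕 ↔ (B \ S).Countable := fun _ => Iff.rfl
  have hne : 𝓕.NeBot := by
    rw [Filter.neBot_iff]
    intro h
    have : (∅ : Set (Pos bad)) ∈ 𝓕 := by
      rw [h]
      exact Filter.mem_bot
    rw [h𝓕, Set.sdiff_empty] at this
    exact hB this
  let U : Ultrafilter (Pos bad) := Ultrafilter.of 𝓕
  have hU : ∀ S, (B \ S).Countable → S ∈ U := fun S hS => Ultrafilter.of_le 𝓕 hS
  have h7 : ∀ p : Pos bad, p ∈ B → ∃ a ∈ p.1.1, Sum.inl a ∉ R ∧ ∃ j ∈ Finset.range n,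
      {q : Pos bad | ∃ d, q.1.2.toList[j]? = some d ∧ bad a d} ∈ U := by
    intro p hp
    have h8 : (⋃ x ∈ (((p.1.1.filter (fun a => Sum.inl a ∉ R)) ×ˢ Finset.range n :
        Finset (α × ℕ)) : Set (α × ℕ)),
        {q : Pos bad | ∃ d, q.1.2.toList[x.2]? = some d ∧ bad x.1 d}) ∈ U := by
      apply hU
      refine (h5 p hp).mono ?_
      rintro q ⟨hq, hq'⟩
      refine ⟨hq, fun ⟨a, ha, haR, d, hd, hb⟩ => hq' ?_⟩
      obtain ⟨j, hj, hjd⟩ := List.getElem_of_mem (Finset.mem_toList.2 hd)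
      have hjn : j < n := by
        have e1 : (g q).card = n := (hBA hq).2
        have e2 : (g q).card = q.1.1.card + q.1.2.card := by simp [g]
        have e3 : q.1.2.toList.length = q.1.2.card := Finset.length_toList _
        omega
      refine Set.mem_iUnion₂.2 ⟨(a, j), ?_, d, ?_, hb⟩
      · rw [Finset.mem_coe, Finset.mem_product, Finset.mem_filter]
        exact ⟨⟨ha, haR⟩, Finset.mem_range.2 hjn⟩
      · rw [List.getElem?_eq_some_iff]
        exact ⟨hj, hjd⟩
    rw [Ultrafilter.finite_biUnion_mem_iff (Finset.finite_toSet _)] at h8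
    obtain ⟨⟨a, j⟩, hx, hx'⟩ := h8
    have hx2 := Finset.mem_product.1 (Finset.mem_coe.1 hx)
    exact ⟨a, (Finset.mem_filter.1 hx2.1).1, (Finset.mem_filter.1 hx2.1).2, j, hx2.2, hx'⟩
  have hBne : B.Nonempty := by
    by_contra h
    rw [Set.not_nonempty_iff_eq_empty] at h
    exact hB (h ▸ Set.countable_empty)
  have hαne : Nonempty α := by
    obtain ⟨p0, hp0⟩ := hBne
    obtain ⟨a, -⟩ := h7 p0 hp0
    exact ⟨a⟩
  choose! af haf1 haf2 jf hjf1 hjf2 using h7
  have h9 : ∃ j, ¬ {p | p ∈ B ∧ jf p = j}.Countable := by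
    by_contra hcon
    push Not at hcon
    apply hB
    refine (Set.countable_iUnion hcon).mono fun p hp => ?_
    exact Set.mem_iUnion.2 ⟨jf p, hp, rfl⟩
  obtain ⟨j, hj⟩ := h9
  apply hj
  have hinj : Set.InjOn af {p | p ∈ B ∧ jf p = j} := by
    rintro p ⟨hp, -⟩ q ⟨hq, -⟩ hpq
    by_contra hne'
    apply haf2 p hp
    exact hR p hp q hq hne' _ ((hmem1 p _).1 (haf1 p hp)) (by
      rw [hpq]
      exact (hmem1 q _).1 (haf1 q hq))
  refine Set.countable_of_injective_of_countable_image hinj (h2 _ ?_)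
  rintro _ ⟨p, ⟨hp, hpj⟩, rfl⟩ _ ⟨q, ⟨hq, hqj⟩, rfl⟩
  have e1 := hjf2 p hp
  have e2 := hjf2 q hq
  rw [hpj] at e1
  rw [hqj] at e2
  obtain ⟨r, ⟨d, hd, hbd⟩, ⟨d', hd', hbd'⟩⟩ := U.nonempty_of_mem (Filter.inter_mem e1 e2)
  rw [hd] at hd'
  obtain rfl := Option.some.inj hd'
  exact ⟨d, hbd, hbd'⟩

end ccc

/-! ## The positive result from Martin's axiom -/

/-- Martin's axiom for `ℵ₁` dense sets: a nonempty (pre)ordered set in which all antichains (sets of
pairwise incompatible elements) are countable has, for every family of at most `ℵ₁` dense subsets, a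
filter which meets all of them. -/
def MartinAlephOne : Prop :=
  ∀ (P : Type u) [Preorder P] [Nonempty P],
    (∀ A : Set P, (∀ a ∈ A, ∀ b ∈ A, a ≠ b → ¬ ∃ c, c ≤ a ∧ c ≤ b) → A.Countable) →
    ∀ (ι : Type), Cardinal.mk ι ≤ Cardinal.aleph 1 →
    ∀ D : ι → Set P, (∀ i, ∀ p, ∃ q ∈ D i, q ≤ p) →
    ∃ G : Set P, (∀ a ∈ G, ∀ b, a ≤ b → b ∈ G) ∧ (∀ a ∈ G, ∀ b ∈ G, ∃ c ∈ G, c ≤ a ∧ c ≤ b) ∧
      ∀ i, (G ∩ D i).Nonempty

section martin

variable {T : Type u} [PartialOrder T]

/-- closure properties of a set of nodes with respect to two assignments -/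
structure Cl (hT : IsTree T) (F G : T → T → Finset T) (M : Set T) : Prop where
  down : ∀ x ∈ M, ∀ z, z ≤ x → z ∈ M
  tf : ∀ t ∈ M, TF hT (fun s => F s t) ⊆ M
  tg : ∀ s ∈ M, TF hT (fun t => G s t) ⊆ M
  ff : ∀ s ∈ M, ∀ t ∈ M, ∀ z ∈ F s t, z ∈ M
  gg : ∀ s ∈ M, ∀ t ∈ M, ∀ z ∈ G s t, z ∈ M

theorem countable_Iic (hT : IsTree T) (hL : TreeLindelof T) (x : T) : (Set.Iic x).Countable := by
  refine (countable_TF hT hL (fun s => {nx hT s x})).mono fun y hy => ?_
  intro s hs
  rw [Finset.mem_singleton]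
  exact nx_eq hT hs hy

theorem countable_chain (hT : IsTree T) (hL : TreeLindelof T) {S : Set T}
    (hS : ∀ a ∈ S, ∀ b ∈ S, a ≤ b ∨ b ≤ a) : S.Countable := by
  classical
  refine (countable_TF hT hL (fun s => if h : ∃ c ∈ S, s < c then {nx hT s h.choose} else ∅)).mono
    fun y hy => ?_
  intro s hs
  have h : ∃ c ∈ S, s < c := ⟨y, hy, hs⟩
  beta_reduce
  rw [dif_pos h, Finset.mem_singleton]
  rcases hS y hy _ h.choose_spec.1 with h1 | h1
  · exact nx_eq hT hs h1
  · exact (nx_eq hT h.choose_spec.2 h1).symm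

theorem exists_Cl (hT : IsTree T) (hL : TreeLindelof T) (F G : T → T → Finset T) {A : Set T}
    (hA : A.Countable) : ∃ M, A ⊆ M ∧ M.Countable ∧ Cl hT F G M := by
  let st : Set T → Set T := fun A => A ∪ ((⋃ x ∈ A, Set.Iic x) ∪
    ((⋃ t ∈ A, TF hT (fun s => F s t)) ∪ ((⋃ s ∈ A, TF hT (fun t => G s t)) ∪
      ((⋃ s ∈ A, ⋃ t ∈ A, (F s t : Set T)) ∪ (⋃ s ∈ A, ⋃ t ∈ A, (G s t : Set T))))))
  have hst : ∀ A, A.Countable → (st A).Countable := by
    intro A hA
    refine hA.union ((hA.biUnion fun x _ => countable_Iic hT hL x).union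
      ((hA.biUnion fun t _ => countable_TF hT hL _).union
      ((hA.biUnion fun s _ => countable_TF hT hL _).union
      ((hA.biUnion fun s _ => hA.biUnion fun t _ => (F s t).countable_toSet).union
      (hA.biUnion fun s _ => hA.biUnion fun t _ => (G s t).countable_toSet)))))
  have hsub : ∀ A, A ⊆ st A := fun A => Set.subset_union_left
  let Mn : ℕ → Set T := fun n => st^[n] A
  have hMn : ∀ n, Mn (n + 1) = st (Mn n) := fun n => Function.iterate_succ_apply' st n A
  have hmono : Monotone Mn := monotone_nat_of_le_succ fun n => by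
    rw [hMn]
    exact hsub _
  refine ⟨⋃ n, Mn n, Set.subset_iUnion Mn 0, Set.countable_iUnion fun n => ?_, ?_⟩
  · induction n with
    | zero => exact hA
    | succ n ih =>
      rw [hMn]
      exact hst _ ih
  · constructor
    · intro x hx z hz
      obtain ⟨n, hn⟩ := Set.mem_iUnion.1 hx
      refine Set.mem_iUnion.2 ⟨n + 1, ?_⟩
      rw [hMn]
      exact Or.inr (Or.inl (Set.mem_iUnion₂.2 ⟨x, hn, hz⟩))
    · intro t ht z hz
      obtain ⟨n, hn⟩ := Set.mem_iUnion.1 ht
      refine Set.mem_iUnion.2 ⟨n + 1, ?_⟩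
      rw [hMn]
      exact Or.inr (Or.inr (Or.inl (Set.mem_iUnion₂.2 ⟨t, hn, hz⟩)))
    · intro t ht z hz
      obtain ⟨n, hn⟩ := Set.mem_iUnion.1 ht
      refine Set.mem_iUnion.2 ⟨n + 1, ?_⟩
      rw [hMn]
      exact Or.inr (Or.inr (Or.inr (Or.inl (Set.mem_iUnion₂.2 ⟨t, hn, hz⟩))))
    · intro s hs t ht z hz
      obtain ⟨n, hn⟩ := Set.mem_iUnion.1 hs
      obtain ⟨m, hm⟩ := Set.mem_iUnion.1 ht
      refine Set.mem_iUnion.2 ⟨max n m + 1, ?_⟩
      rw [hMn]
      exact Or.inr (Or.inr (Or.inr (Or.inr (Or.inl (Set.mem_iUnion₂.2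
        ⟨s, hmono (le_max_left n m) hn, Set.mem_iUnion₂.2 ⟨t, hmono (le_max_right n m) hm, hz⟩⟩)))))
    · intro s hs t ht z hz
      obtain ⟨n, hn⟩ := Set.mem_iUnion.1 hs
      obtain ⟨m, hm⟩ := Set.mem_iUnion.1 ht
      refine Set.mem_iUnion.2 ⟨max n m + 1, ?_⟩
      rw [hMn]
      exact Or.inr (Or.inr (Or.inr (Or.inr (Or.inr (Set.mem_iUnion₂.2
        ⟨s, hmono (le_max_left n m) hn, Set.mem_iUnion₂.2 ⟨t, hmono (le_max_right n m) hm, hz⟩⟩)))))

/-- A pair which is not covered by the neighbourhoods of the pairs in a closed set `M` has its first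
coordinate outside `M`, and that coordinate leaves `M` only at a limit level. -/
theorem limit_of_uncovered [DecidableEq T] (hT : IsTree T) (F G : T → T → Finset T)
    (hF : ∀ s t, ∀ z ∈ F s t, s < z) (hG : ∀ s t, ∀ z ∈ G s t, t < z) {M : Set T}
    (hM : Cl hT (fun s t => (F s t).image (nx hT s)) (fun s t => (G s t).image (nx hT t)) M)
    {x y : T} (h : ∀ s ∈ M, ∀ t ∈ M, ¬ (x ∈ nb s (F s t) ∧ y ∈ nb t (G s t))) :
    x ∉ M ∧ ∀ s ∈ M, s < x → nx hT s x ∈ M := by
  have hself : ∀ (s : T) (E : Finset T), (∀ z ∈ E, s < z) → s ∈ nb s E := fun s E hE =>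
    ⟨le_rfl, fun z hz hzs => absurd hzs (not_le_of_gt (hE z hz))⟩
  have hy : y ∉ M := by
    intro hyM
    by_cases hx : x ∈ M
    · exact h x hx y hyM ⟨hself _ _ (hF _ _), hself _ _ (hG _ _)⟩
    · obtain ⟨s, hs, hsx, hn⟩ := exists_exit hT (fun h' => hx (hM.tf y hyM h'))
      exact h s (hM.tf y hyM hs) y hyM ⟨mem_nb_of_nx hT (hF _ _) hsx.le (fun _ => hn),
        hself _ _ (hG _ _)⟩
  have hx : x ∉ M := by
    intro hxM
    obtain ⟨t, ht, hty, hn⟩ := exists_exit hT (fun h' => hy (hM.tg x hxM h'))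
    exact h x hxM t (hM.tg x hxM ht) ⟨hself _ _ (hF _ _),
      mem_nb_of_nx hT (hG _ _) hty.le (fun _ => hn)⟩
  refine ⟨hx, fun s hs hsx => ?_⟩
  by_contra hcon
  obtain ⟨t, ht, hty, hn⟩ := exists_exit hT (fun h' => hy (hM.tg s hs h'))
  have htM := hM.tg s hs ht
  exact h s hs t htM ⟨mem_nb_of_nx hT (hF _ _) hsx.le (fun _ h' => hcon (hM.ff s hs t htM _ h')),
      mem_nb_of_nx hT (hG _ _) hty.le (fun _ => hn)⟩


variable (T) in
/-- the main step: a family `x : I → T` of distinct nodes with countable splitting is covered, under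
Martin's axiom, by countably many finitely splitting subtrees -/
theorem martin_step (hMA : MartinAlephOne.{u}) (hT : IsTree T) (hL : TreeLindelof T) (x : I → T)
    (hx : Function.Injective x)
    (hsplit : ∀ s : T, {z | ∃ δ, s < x δ ∧ z = nx hT s (x δ)}.Countable) : False := by
  classical
  have h0 : ∀ s : T, ∃ f : T → ℕ, Set.InjOn f {z | ∃ δ, s < x δ ∧ z = nx hT s (x δ)} := fun s =>
    Set.countable_iff_exists_injOn.1 (hsplit s)
  choose idx hidx using h0
  let bad : (ℕ × T × ℕ) → ULift.{u} (ℕ × I) → Prop := fun a d =>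
    a.1 = d.down.1 ∧ a.2.1 < x d.down.2 ∧ a.2.2 < idx a.2.1 (nx hT a.2.1 (x d.down.2))
  have hccc := ccc bad (by
    intro d
    have : {a | bad a d} ⊆ ({d.down.1} : Set ℕ) ×ˢ ((Set.Iic (x d.down.2)) ×ˢ (Set.univ : Set ℕ)) := by
      rintro a ⟨h1, h2, -⟩
      exact ⟨h1, h2.le, trivial⟩
    refine Set.Countable.mono this ((Set.countable_singleton _).prod
      ((countable_Iic hT hL _).prod Set.countable_univ))) (by
    intro S hS
    have h1 : ((fun a : ℕ × T × ℕ => a.2.1) '' S).Countable := by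
      apply countable_chain hT hL
      rintro _ ⟨a, ha, rfl⟩ _ ⟨b, hb, rfl⟩
      obtain ⟨d, ⟨-, h1, -⟩, ⟨-, h2, -⟩⟩ := hS a ha b hb
      exact comparable hT h1.le h2.le
    have h2 : S ⊆ (Set.univ : Set ℕ) ×ˢ (((fun a : ℕ × T × ℕ => a.2.1) '' S) ×ˢ
        (Set.univ : Set ℕ)) := fun a ha => ⟨trivial, ⟨a, ha, rfl⟩, trivial⟩
    exact Set.Countable.mono h2 (Set.countable_univ.prod (h1.prod Set.countable_univ)))
  -- enumerations of the predecessors
  have h3 : ∀ δ, ∃ c : ℕ → T, Set.Iic (x δ) = Set.range c := fun δ =>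
    (countable_Iic hT hL (x δ)).exists_eq_range ⟨x δ, le_refl (x δ)⟩
  choose c hc using h3
  haveI : Nonempty (Pos bad) := ⟨⟨(∅, ∅), by simp⟩⟩
  let D : I × Option (ℕ × ℕ) → Set (Pos bad) := fun i => match i.2 with
    | none => {p | ∃ n, ULift.up (n, i.1) ∈ p.1.2}
    | some (n, m) => {p | ∃ k, (n, c i.1 m, k) ∈ p.1.1}
  obtain ⟨G, -, hdir, hG⟩ := hMA (Pos bad) hccc (I × Option (ℕ × ℕ)) (by
      rw [Cardinal.mk_prod, Cardinal.lift_id, Cardinal.lift_id, mk_I]
      refine Cardinal.mul_le_of_le (Cardinal.aleph0_le_aleph 1) le_rfl ?_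
      exact (Cardinal.mk_le_aleph0).trans (Cardinal.aleph0_le_aleph 1)) D (by
    rintro ⟨δ, (_ | ⟨n, m⟩)⟩ p
    · -- add `δ` to a fresh copy
      let n : ℕ := p.1.1.sup (fun a => a.1) + 1
      refine ⟨⟨(p.1.1, insert (ULift.up (n, δ)) p.1.2), ?_⟩, ⟨n, Finset.mem_insert_self _ _⟩,
        le_refl p.1.1, Finset.subset_insert _ _⟩
      intro a ha d hd
      rcases Finset.mem_insert.1 hd with rfl | hd
      · rintro ⟨h1, -, -⟩
        have h2 : a.1 ≤ p.1.1.sup (fun a => a.1) := Finset.le_sup (f := fun a : ℕ × T × ℕ => a.1) ha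
        have h3 : a.1 = n := h1
        omega
      · exact p.2 a ha d hd
    · -- add a bound at the node
      let k : ℕ := p.1.2.sup (fun d => idx (c δ m) (nx hT (c δ m) (x d.down.2)))
      refine ⟨⟨(insert (n, c δ m, k) p.1.1, p.1.2), ?_⟩, ⟨k, Finset.mem_insert_self _ _⟩,
        Finset.subset_insert _ _, le_refl p.1.2⟩
      intro a ha d hd
      rcases Finset.mem_insert.1 ha with rfl | ha
      · rintro ⟨-, -, h1⟩
        have h2 : idx (c δ m) (nx hT (c δ m) (x d.down.2)) ≤ k :=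
          Finset.le_sup (f := fun d : ULift.{u} (ℕ × I) =>
            idx (c δ m) (nx hT (c δ m) (x d.down.2))) hd
        exact absurd h1 (not_lt.2 h2)
      · exact p.2 a ha d hd)
  -- the generic bounds
  have h4 : ∀ (n : ℕ) (s : T), ∃ k, (∃ δ, s < x δ) → ∃ p ∈ G, (n, s, k) ∈ p.1.1 := by
    intro n s
    by_cases hs : ∃ δ, s < x δ
    · obtain ⟨δ, hδ⟩ := hs
      have h5 : s ∈ Set.range (c δ) := by
        rw [← hc δ]
        exact hδ.le
      obtain ⟨m, rfl⟩ := h5
      obtain ⟨p, hp, k, hk⟩ := hG (δ, some (n, m))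
      exact ⟨k, fun _ => ⟨p, hp, hk⟩⟩
    · exact ⟨0, fun h => absurd h hs⟩
  choose kk hkk using h4
  have h5 : ∀ (n : ℕ) (s : T), {z | (∃ δ, s < x δ ∧ z = nx hT s (x δ)) ∧ idx s z ≤ kk n s}.Finite := by
    intro n s
    refine Set.Finite.of_injOn (f := idx s) (t := Set.Iic (kk n s)) (fun z hz => hz.2)
      ((hidx s).mono (fun z hz => hz.1)) (Set.finite_Iic _)
  have h6 : ∀ δ, ∃ n, x δ ∈ TF hT (fun s => (h5 n s).toFinset) := by
    intro δ
    obtain ⟨p, hp, n, hn⟩ := hG (δ, none)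
    refine ⟨n, fun s hs => ?_⟩
    rw [Set.Finite.mem_toFinset]
    refine ⟨⟨δ, hs, rfl⟩, ?_⟩
    obtain ⟨q, hq, hqk⟩ := hkk n s ⟨δ, hs⟩
    obtain ⟨r, -, hrp, hrq⟩ := hdir p hp q hq
    have h7 := r.2 _ (hrq.1 hqk) _ (hrp.2 hn)
    by_contra hcon
    exact h7 ⟨rfl, hs, not_le.1 hcon⟩
  apply uncountable_I
  have h8 : (Set.univ : Set I) ⊆ ⋃ n, x ⁻¹' (TF hT (fun s => (h5 n s).toFinset)) := fun δ _ =>
    Set.mem_iUnion.2 (h6 δ)
  exact (Set.countable_iUnion fun n => (countable_TF hT hL _).preimage_of_injOn hx.injOn).mono h8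

end martin

section main

variable {T : Type u} [PartialOrder T]

theorem exists_gt_I (i : I) : ∃ j : I, i < j := by
  by_contra hcon
  push Not at hcon
  exact uncountable_I ((countable_Iic_I i).mono fun j _ => hcon j)

/-- Under Martin's axiom the square of a Lindelöf tree is Lindelöf. -/
theorem square_of_martin (hMA : MartinAlephOne.{u}) (hT : IsTree T) (hL : TreeLindelof T) :
    TreeSquareLindelof T := by
  classical
  letI := fineWedge T
  refine ⟨isLindelof_of_countable_subcover ?_⟩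
  intro ι U hUo hcov
  by_contra hcon
  push Not at hcon
  have h1 : ∀ s t : T, ∃ i, (s, t) ∈ U i := fun s t => Set.mem_iUnion.1 (hcov (Set.mem_univ (s, t)))
  choose i hi using h1
  have h2 : ∀ s t : T, ∃ F G : Finset T, (∀ z ∈ F, s < z) ∧ (∀ z ∈ G, t < z) ∧
      nb s F ×ˢ nb t G ⊆ U (i s t) := by
    intro s t
    obtain ⟨V, W, hV, hW, hsV, htW, hVW⟩ := isOpen_prod_iff.1 (hUo (i s t)) s t (hi s t)
    obtain ⟨F, hF, hF'⟩ := exists_nb hT hV hsV
    obtain ⟨G, hG, hG'⟩ := exists_nb hT hW htW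
    exact ⟨F, G, hF, hG, (Set.prod_mono hF' hG').trans hVW⟩
  choose F G hF hG hFG using h2
  -- uncovered pairs
  have h3 : ∀ M : Set T, ∃ x y : T, M.Countable → ∀ s ∈ M, ∀ t ∈ M,
      ¬ (x ∈ nb s (F s t) ∧ y ∈ nb t (G s t)) := by
    intro M
    by_cases hM : M.Countable
    · have h4 := hcon ((fun p : T × T => i p.1 p.2) '' (M ×ˢ M)) ((hM.prod hM).image _)
      obtain ⟨⟨x, y⟩, -, hxy⟩ := Set.not_subset.1 h4
      refine ⟨x, y, fun _ s hs t ht hst => hxy ?_⟩
      exact Set.mem_iUnion₂.2 ⟨i s t, ⟨(s, t), ⟨hs, ht⟩, rfl⟩, hFG s t hst⟩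
    · have h4 := hcon ∅ Set.countable_empty
      obtain ⟨⟨x, y⟩, -, -⟩ := Set.not_subset.1 h4
      exact ⟨x, y, fun h => absurd h hM⟩
  choose xx yy hxy using h3
  -- closure operator
  have h4 : ∀ A : Set T, ∃ M, A.Countable → A ⊆ M ∧ M.Countable ∧
      Cl hT (fun s t => (F s t).image (nx hT s)) (fun s t => (G s t).image (nx hT t)) M := by
    intro A
    by_cases hA : A.Countable
    · obtain ⟨M, hM⟩ := exists_Cl hT hL (fun s t => (F s t).image (nx hT s))
        (fun s t => (G s t).image (nx hT t)) hA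
      exact ⟨M, fun _ => hM⟩
    · exact ⟨∅, fun h => absurd h hA⟩
  choose cl hcl using h4
  -- the increasing chain
  let M : I → Set T := WellFounded.fix (wellFounded_lt (α := I))
    (fun δ ih => cl (⋃ γ : {γ : I // γ < δ}, insert (xx (ih γ.1 γ.2)) (ih γ.1 γ.2)))
  have hMeq : ∀ δ, M δ = cl (⋃ γ : {γ : I // γ < δ}, insert (xx (M γ.1)) (M γ.1)) := by
    intro δ
    exact WellFounded.fix_eq (wellFounded_lt (α := I)) _ δ
  have hcount : ∀ δ, (⋃ γ : {γ : I // γ < δ}, insert (xx (M γ.1)) (M γ.1)).Countable ∧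
      (M δ).Countable := by
    intro δ
    induction δ using WellFoundedLT.induction with
    | ind δ ih =>
      have : Countable {γ : I // γ < δ} := (countable_Iio_I δ).to_subtype
      have h5 : (⋃ γ : {γ : I // γ < δ}, insert (xx (M γ.1)) (M γ.1)).Countable :=
        Set.countable_iUnion fun γ => ((ih γ.1 γ.2).2).insert _
      refine ⟨h5, ?_⟩
      rw [hMeq]
      exact (hcl _ h5).2.1
  have hMcl : ∀ δ, Cl hT (fun s t => (F s t).image (nx hT s))
      (fun s t => (G s t).image (nx hT t)) (M δ) := by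
    intro δ
    rw [hMeq]
    exact (hcl _ (hcount δ).1).2.2
  have hMsub : ∀ γ δ, γ < δ → insert (xx (M γ)) (M γ) ⊆ M δ := by
    intro γ δ hγδ
    rw [hMeq δ]
    refine Set.Subset.trans ?_ (hcl _ (hcount δ).1).1
    exact Set.subset_iUnion (fun γ : {γ : I // γ < δ} => insert (xx (M γ.1)) (M γ.1)) ⟨γ, hγδ⟩
  have hMmono : ∀ γ δ, γ ≤ δ → M γ ⊆ M δ := by
    intro γ δ h
    rcases h.eq_or_lt with rfl | h
    · exact le_rfl
    · exact (Set.subset_insert _ _).trans (hMsub γ δ h)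
  set x : I → T := fun δ => xx (M δ) with hx
  have hlim : ∀ γ δ, γ ≤ δ → x δ ∉ M γ ∧ ∀ s ∈ M γ, s < x δ → nx hT s (x δ) ∈ M γ := by
    intro γ δ h
    apply limit_of_uncovered hT F G hF hG (hMcl γ) (y := yy (M δ))
    intro s hs t ht
    exact hxy (M δ) (hcount δ).2 s (hMmono γ δ h hs) t (hMmono γ δ h ht)
  have hxM : ∀ γ δ, γ < δ → x γ ∈ M δ := fun γ δ h => hMsub γ δ h (Set.mem_insert _ _)
  refine martin_step T hMA hT hL x ?_ ?_
  · intro γ δ h
    rcases lt_trichotomy γ δ with h' | h' | h'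
    · exact absurd (h ▸ hxM γ δ h') (hlim δ δ le_rfl).1
    · exact h'
    · exact absurd (h ▸ hxM δ γ h') (hlim γ γ le_rfl).1
  · intro s
    by_cases hs : ∃ δ, s < x δ
    · obtain ⟨δ0, hδ0⟩ := hs
      obtain ⟨γ, hγ⟩ := exists_gt_I δ0
      have hsM : s ∈ M γ := (hMcl γ).down _ (hxM δ0 γ hγ) s hδ0.le
      refine ((hcount γ).2.union ((countable_Iio_I γ).image (fun δ => nx hT s (x δ)))).mono ?_
      rintro z ⟨δ, hδ, rfl⟩
      rcases lt_or_ge δ γ with h | h
      · exact Or.inr ⟨δ, h, rfl⟩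
      · exact Or.inl ((hlim γ δ h).2 s hsM hδ)
    · convert Set.countable_empty (α := T)
      rw [Set.eq_empty_iff_forall_notMem]
      rintro z ⟨δ, hδ, -⟩
      exact hs ⟨δ, hδ⟩

end main

/-- **Main result.** Whether the square of every Lindelöf tree (in the fine wedge topology) is
Lindelöf is independent of ZFC: Martin's axiom for `ℵ₁` dense sets implies that it is, while
`𝔡 = ℵ₁` (in particular the continuum hypothesis) implies that it is not. -/
theorem result :
    (MartinAlephOne.{u} → ∀ (T : Type u) [PartialOrder T], IsTree T → TreeLindelof T →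
      TreeSquareLindelof T) ∧
    (DominatingLeAlephOne →
      ∃ (T : Type) (_ : PartialOrder T), IsTree T ∧ TreeLindelof T ∧ ¬ TreeSquareLindelof T) ∧
    (Cardinal.continuum.{0} = Cardinal.aleph 1 → DominatingLeAlephOne) :=
  ⟨fun hMA T _ hT hL => square_of_martin hMA hT hL, counterexample, dominating_of_CH⟩
end Pool.Agent.Results.MP_2757db_lc.FineWedgeSquares
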